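import Mathlib

set_option autoImplicit false
set_option linter.unusedSectionVars false

/-!
# Douglas factorization and Gram vectors over a unital C*-algebra
-/

namespace Pool.Agent.Q92.CS

open Finset

variable {A : Type*} [CStarAlgebra A] [PartialOrder A] [StarOrderedRing A]

/-- The `A`-valued inner product of two columns. -/
def ip {ι : Type*} [Fintype ι] (x y : ι → A) : A := ∑ i, star (x i) * y i

/-- Douglas factorization. -/
def DF (A : Type*) [CStarAlgebra A] [PartialOrder A] : Prop :=
  ∀ x s : A, star x * x ≤ star s * s → ∃ w : A, star w * w ≤ 1 ∧ x = w * s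

section ip

variable {ι : Type*} [Fintype ι]

lemma ip_star (x y : ι → A) : star (ip x y) = ip y x := by
  simp [ip, star_sum]

lemma ip_add_right (x y z : ι → A) : ip x (y + z) = ip x y + ip x z := by
  simp [ip, mul_add, sum_add_distrib]

lemma ip_add_left (x y z : ι → A) : ip (x + y) z = ip x z + ip y z := by
  simp [ip, add_mul, sum_add_distrib]

lemma ip_sub_right (x y z : ι → A) : ip x (y - z) = ip x y - ip x z := by
  simp [ip, mul_sub, sum_sub_distrib]

lemma ip_sub_left (x y z : ι → A) : ip (x - y) z = ip x z - ip y z := by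
  simp [ip, sub_mul, sum_sub_distrib]

/-- multiplication of a column from the right -/
def rm (x : ι → A) (a : A) : ι → A := fun i => x i * a

lemma ip_rm_right (x y : ι → A) (a : A) : ip x (rm y a) = ip x y * a := by
  simp [ip, rm, sum_mul, mul_assoc]

lemma ip_rm_left (x y : ι → A) (a : A) : ip (rm x a) y = star a * ip x y := by
  simp [ip, rm, mul_sum, mul_assoc]

lemma ip_self_nonneg (x : ι → A) : 0 ≤ ip x x :=
  sum_nonneg fun _ _ => star_mul_self_nonneg _

lemma eq_zero_of_ip_self (x : ι → A) (h : ip x x = 0) : x = 0 := by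
  have := (sum_eq_zero_iff_of_nonneg (fun i _ => star_mul_self_nonneg (x i))).1 h
  funext i
  exact CStarRing.star_mul_self_eq_zero_iff _ |>.1 (this i (mem_univ i))

/-- extension of a column by one entry -/
def ext (x : ι → A) (a : A) : Option ι → A := fun o => o.elim a x

lemma ip_ext (x y : ι → A) (a b : A) : ip (ext x a) (ext y b) = star a * b + ip x y := by
  simp [ip, ext, Fintype.sum_option]

lemma ip_option (x y : Option ι → A) :
    ip x y = star (x none) * y none + ip (fun i => x (some i)) (fun i => y (some i)) := by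
  simp [ip, Fintype.sum_option]

lemma ip_ext_right (x : Option ι → A) (y : ι → A) :
    ip x (ext y 0) = ip (fun i => x (some i)) y := by
  simp [ip, ext, Fintype.sum_option]

end ip

lemma star_mul_le_one_iff (w : A) : star w * w ≤ 1 ↔ ‖w‖ ≤ 1 := by
  rw [← CStarAlgebra.norm_le_one_iff_of_nonneg _ (star_mul_self_nonneg w), CStarRing.norm_star_mul_self]
  constructor
  · intro h
    by_contra hc
    push Not at hc
    nlinarith
  · intro h
    nlinarith [norm_nonneg w]

lemma mul_star_le_one {w : A} (h : star w * w ≤ 1) : w * star w ≤ 1 := by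
  have h1 := (star_mul_le_one_iff w).1 h
  have h2 := (star_mul_le_one_iff (star w)).2 (by rwa [norm_star])
  simpa using h2

lemma eq_zero_of_star_mul_self_le {a : A} (h : star a * a ≤ 0) : a = 0 := by
  have : star a * a = 0 := le_antisymm h (star_mul_self_nonneg a)
  exact CStarRing.star_mul_self_eq_zero_iff _ |>.1 this

lemma exists_sqrt {a : A} (h : 0 ≤ a) : ∃ r : A, 0 ≤ r ∧ star r = r ∧ r * r = a := by
  refine ⟨CFC.sqrt a, CFC.sqrt_nonneg a, ?_, CFC.sqrt_mul_sqrt_self a h⟩
  exact (IsSelfAdjoint.of_nonneg (CFC.sqrt_nonneg a)).star_eq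

/-- Separation. -/
lemma sep (hD : DF A) {J : Type*} [Fintype J] (y : J → A) (r : A) (hr : 0 ≤ r)
    (h : ∀ j, y j * r = 0) :
    ∃ q : A, 0 ≤ q ∧ q ≤ 1 ∧ q * r = 0 ∧ ∀ j, y j * q = y j := by
  have hrs : star r = r := (IsSelfAdjoint.of_nonneg hr).star_eq
  have h0 : 0 ≤ ip y y := ip_self_nonneg y
  obtain ⟨g, hg0, hgs, hgg⟩ := exists_sqrt h0
  have hhr : ip y y * r = 0 := by
    simp only [ip, sum_mul, mul_assoc, h, mul_zero, sum_const_zero]
  have hgr : g * r = 0 := by
    apply eq_zero_of_star_mul_self_le
    rw [star_mul, hrs, hgs, show r * g * (g * r) = r * ((g * g) * r) by simp only [mul_assoc], hgg,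
      hhr, mul_zero]
  have hrg : r * g = 0 := by
    have := congrArg star hgr
    rwa [star_mul, hrs, hgs, star_zero] at this
  obtain ⟨w, hw, hx⟩ := hD (g - r) (g + r) (by
    rw [star_sub, star_add, hgs, hrs]
    apply le_of_eq
    simp only [sub_mul, mul_sub, add_mul, mul_add, hgr, hrg]
    abel)
  set H := ip y y with hH
  have hHs : star H = H := (IsSelfAdjoint.of_nonneg h0).star_eq
  -- w h = h
  have hwh : w * H = H := by
    have := congrArg (· * g) hx
    simp only [sub_mul, mul_assoc, add_mul, hrg, hgg, add_zero, sub_zero] at this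
    exact this.symm
  have hwr2 : (w + 1) * (r * r) = 0 := by
    have := congrArg (· * r) hx
    simp only [sub_mul, mul_assoc, add_mul, hgr, zero_add, zero_sub] at this
    rw [add_mul, one_mul, ← this]
    abel
  have hwr : (w + 1) * r = 0 := by
    have h3 : star ((w + 1) * r) = 0 := by
      apply eq_zero_of_star_mul_self_le
      rw [star_star, star_mul, hrs]
      have : (w + 1) * r * (r * star (w + 1)) = (w + 1) * (r * r) * star (w + 1) := by
        simp only [mul_assoc]
      rw [this, hwr2, zero_mul]
    simpa using congrArg star h3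
  have hsw : star w * H = H := by
    have h4 : H - star w * H = 0 := by
      apply eq_zero_of_star_mul_self_le
      have e1 : star (H - star w * H) * (H - star w * H)
          = H * H - H * (star w * H) - (H * w) * H + H * (w * star w) * H := by
        rw [star_sub, star_mul, star_star, hHs]
        simp only [sub_mul, mul_sub, mul_assoc]
        abel
      have e2 : (H * w) * H = H * H := by rw [mul_assoc, hwh]
      have e3 : H * (star w * H) = H * H := by
        have := congrArg star e2
        simpa [star_mul, hHs, mul_assoc] using this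
      have e4 : H * (w * star w) * H ≤ H * H := by
        have := star_left_conjugate_le_conjugate (mul_star_le_one hw) H
        rw [hHs] at this
        simpa using this
      rw [e1, e2, e3]
      have : H * H - H * H - H * H + H * (w * star w) * H = H * (w * star w) * H - H * H := by abel
      rw [this]
      exact sub_nonpos.2 e4
    exact (sub_eq_zero.1 h4).symm
  set e : A := (1 / 2 : ℂ) • (1 + w) with he
  have heH : e * H = H := by
    rw [he, smul_mul_assoc, add_mul, one_mul, hwh, ← two_smul ℂ H, smul_smul]
    norm_num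
  have heH' : star e * H = H := by
    rw [he, star_smul, smul_mul_assoc, star_add, star_one, add_mul, one_mul, hsw,
      ← two_smul ℂ H, smul_smul]
    simp
  have her : e * r = 0 := by
    rw [he, smul_mul_assoc, add_comm, hwr, smul_zero]
  have hen : ‖e‖ ≤ 1 := by
    have h1 := (star_mul_le_one_iff w).1 hw
    rcases subsingleton_or_nontrivial A with hA | hA
    · rw [Subsingleton.elim e 0]; simp
    have h2 : ‖(1 : A) + w‖ ≤ 2 := by
      refine (norm_add_le _ _).trans ?_
      rw [CStarRing.norm_one]
      linarith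
    rw [he, norm_smul]
    have : ‖(1 / 2 : ℂ)‖ = 1 / 2 := by simp
    rw [this]
    linarith
  refine ⟨star e * e, star_mul_self_nonneg e, (star_mul_le_one_iff e).2 hen, ?_, ?_⟩
  · rw [mul_assoc, her, mul_zero]
  · intro j
    have hqH : star e * e * H = H := by rw [mul_assoc, heH, heH']
    have hz : ip (rm y (1 - star e * e)) (rm y (1 - star e * e)) = 0 := by
      rw [ip_rm_left, ip_rm_right, ← hH]
      have hs : star (1 - star e * e) = 1 - star e * e := by simp
      rw [hs, ← mul_assoc, sub_mul, one_mul, hqH, sub_self, zero_mul]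
    have := congrFun (eq_zero_of_ip_self _ hz) j
    simp only [rm, Pi.zero_apply, mul_sub, mul_one] at this
    exact (sub_eq_zero.1 this).symm

/-- Factorization of columns. -/
lemma col (hD : DF A) {ι : Type*} [DecidableEq ι] (T : Finset ι) (x : ι → A) (s : A)
    (h : ∑ i ∈ T, star (x i) * x i ≤ star s * s) :
    ∃ t : ι → A, (∀ i ∈ T, x i = t i * s) ∧ ∑ i ∈ T, star (t i) * t i ≤ 1 := by
  induction T using Finset.induction_on with
  | empty => exact ⟨0, by simp, by simp⟩
  | @insert k T hk ih =>
    rw [sum_insert hk] at h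
    have h1 : ∑ i ∈ T, star (x i) * x i ≤ star s * s :=
      le_trans (le_add_of_nonneg_left (star_mul_self_nonneg _)) h
    obtain ⟨t, ht, htt⟩ := ih h1
    obtain ⟨D, hD0, hDs, hDD⟩ := exists_sqrt (sub_nonneg.2 htt)
    have hsum : ∑ i ∈ T, star (x i) * x i = star s * (∑ i ∈ T, star (t i) * t i) * s := by
      rw [mul_sum, sum_mul]
      refine sum_congr rfl fun i hi => ?_
      rw [ht i hi, star_mul]
      simp only [mul_assoc]
    have h2 : star (x k) * x k ≤ star (D * s) * (D * s) := by
      have e1 : star (D * s) * (D * s) = star s * (D * D) * s := by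
        rw [star_mul, hDs]; simp only [mul_assoc]
      rw [e1, hDD, mul_sub, sub_mul, mul_one, ← hsum]
      exact le_sub_iff_add_le.2 h
    obtain ⟨u, hu, hxu⟩ := hD _ _ h2
    refine ⟨Function.update t k (u * D), ?_, ?_⟩
    · intro i hi
      rcases Finset.mem_insert.1 hi with rfl | hiT
      · rw [Function.update_self, hxu, mul_assoc]
      · have hne : i ≠ k := fun e => hk (e ▸ hiT)
        rw [Function.update_of_ne hne]
        exact ht i hiT
    · rw [sum_insert hk, Function.update_self]
      have e2 : ∑ i ∈ T, star (Function.update t k (u * D) i) * Function.update t k (u * D) i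
          = ∑ i ∈ T, star (t i) * t i :=
        sum_congr rfl fun i hi => by
          have hne : i ≠ k := fun e => hk (e ▸ hi)
          rw [Function.update_of_ne hne]
      rw [e2]
      have e3 : star (u * D) * (u * D) ≤ 1 - ∑ i ∈ T, star (t i) * t i := by
        have := star_left_conjugate_le_conjugate hu D
        rw [star_mul]
        calc star D * star u * (u * D) = star D * (star u * u) * D := by simp only [mul_assoc]
          _ ≤ star D * 1 * D := this
          _ = _ := by rw [mul_one, hDs, hDD]
      exact (le_sub_iff_add_le.1 e3)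

/-- Weak polar decomposition of columns. -/
lemma polar (hD : DF A) {ι : Type*} [Fintype ι] (s : ι → A) :
    ∃ (r : A) (v : ι → A), 0 ≤ r ∧ star r = r ∧ r * r = ip s s ∧ s = rm v r ∧ ip v v ≤ 1 := by
  classical
  obtain ⟨r, h0, hs, hr⟩ := exists_sqrt (ip_self_nonneg s)
  obtain ⟨v, hv, hvv⟩ := col hD Finset.univ s r (by rw [hs, hr]; exact le_rfl)
  exact ⟨r, v, h0, hs, hr, funext fun i => hv i (mem_univ i), hvv⟩

/-- a column contraction is the first part of an isometric column -/
lemma isom {ι : Type*} [Fintype ι] (s v : ι → A) (r : A) (hs : star r = r)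
    (hr : r * r = ip s s) (h : s = rm v r) (hv : ip v v ≤ 1) :
    ∃ d : A, ip (ext v d) (ext v d) = 1 ∧ rm (ext v d) r = ext s 0 := by
  obtain ⟨d, hd0, hds, hdd⟩ := exists_sqrt (sub_nonneg.2 hv)
  refine ⟨d, ?_, ?_⟩
  · rw [ip_ext, hds, hdd]; abel
  · have hdr : d * r = 0 := by
      apply eq_zero_of_star_mul_self_le
      have : ip s s = r * ip v v * r := by
        conv_lhs => rw [h]
        rw [ip_rm_left, ip_rm_right, hs, mul_assoc]
      have e : star (d * r) * (d * r) = r * (d * d) * r := by
        rw [star_mul, hds, hs]; simp only [mul_assoc]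
      rw [e, hdd, mul_sub, sub_mul, mul_one, hr, ← this, sub_self]
    funext o
    cases o with
    | none => simpa [rm, ext] using hdr
    | some i => simp [rm, ext, h]

/-- The transfer lemma: Gram families with the same Gram matrix. -/
lemma transfer (hD : DF A) : ∀ (k : ℕ) {ι κ : Type} [Fintype ι] [Fintype κ]
    (s : Fin k → ι → A) (x : Fin k → κ → A) (_ : ∀ i j, ip (s i) (s j) = ip (x i) (x j))
    (y : κ → A), ∃ z : ι → A, (∀ i, ip z (s i) = ip y (x i)) ∧ ip z z ≤ ip y y := by
  intro k
  induction k with
  | zero =>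
    intro ι κ _ _ s x h y
    exact ⟨0, fun i => i.elim0, by simpa [ip] using ip_self_nonneg y⟩
  | succ k ih =>
    intro ι κ _ _ s x h y
    obtain ⟨r, v, hr0, hrs, hrr, hsv, hvv⟩ := polar hD (s 0)
    obtain ⟨u, hu, huu⟩ : ∃ u : κ → A, x 0 = rm u r ∧ ip u u ≤ 1 := by
      classical
      obtain ⟨u, hu, huu⟩ := col hD Finset.univ (x 0) r (by
        rw [hrs, hrr, h 0 0]; exact le_rfl)
      exact ⟨u, funext fun i => hu i (mem_univ i), huu⟩
    -- separation
    obtain ⟨q, hq0, hq1, hqr, hyq⟩ := sep hD
      (fun j : Fin (k + 1) => ip (s j) v - ip (x j) u) r hr0 (by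
        intro j
        rw [sub_mul, ← ip_rm_right, ← ip_rm_right, ← hsv, ← hu, h j 0, sub_self])
    have hqs : star q = q := (IsSelfAdjoint.of_nonneg hq0).star_eq
    set v' := rm v (1 - q) with hv'
    set u' := rm u (1 - q) with hu'
    have h1q : star (1 - q) = 1 - q := by rw [star_sub, star_one, hqs]
    have h1qr : (1 - q) * r = r := by rw [sub_mul, one_mul, hqr, sub_zero]
    have hq1' : (1 - q) * (1 - q) ≤ 1 := by
      have hn : ‖1 - q‖ ≤ 1 := by
        rw [CStarAlgebra.norm_le_one_iff_of_nonneg _ (sub_nonneg.2 hq1)]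
        exact sub_le_self _ hq0
      have := (star_mul_le_one_iff (1 - q)).2 hn
      rwa [h1q] at this
    have hsv' : s 0 = rm v' r := by
      conv_lhs => rw [hsv]
      funext i
      simp only [rm, hv', mul_assoc, h1qr]
    have hxu' : x 0 = rm u' r := by
      conv_lhs => rw [hu]
      funext i
      simp only [rm, hu', mul_assoc, h1qr]
    have conj : ∀ {τ : Type} [Fintype τ] (v : τ → A), ip v v ≤ 1 →
        ip (rm v (1 - q)) (rm v (1 - q)) ≤ 1 := by
      intro τ _ v hvv
      rw [ip_rm_left, ip_rm_right, h1q]
      have := star_left_conjugate_le_conjugate hvv (1 - q)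
      rw [h1q, mul_one] at this
      rw [← mul_assoc]
      exact this.trans hq1'
    have hvv' : ip v' v' ≤ 1 := conj v hvv
    have huu' : ip u' u' ≤ 1 := conj u huu
    have hcomm : ∀ j, ip (s j) v' = ip (x j) u' := by
      intro j
      rw [hv', hu', ip_rm_right, ip_rm_right]
      have := hyq j
      simp only [sub_mul] at this
      rw [mul_sub, mul_sub, mul_one, mul_one]
      rw [sub_eq_sub_iff_sub_eq_sub] at this ⊢
      rw [← sub_eq_zero] at this ⊢
      rw [← neg_eq_zero, ← this]
      abel
    obtain ⟨dv, hdv, hdvr⟩ := isom (s 0) v' r hrs hrr hsv' hvv'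
    obtain ⟨du, hdu, hdur⟩ := isom (x 0) u' r hrs (by rw [hrr, h 0 0]) hxu' huu'
    set V := ext v' dv with hV
    set U := ext u' du with hU
    set Y := ext y (0 : A) with hY
    have hSV : ∀ j, ip (ext (s j) 0) V = ip (s j) v' := fun j => by simp [hV, ip_ext]
    have hXU : ∀ j, ip (ext (x j) 0) U = ip (x j) u' := fun j => by simp [hU, ip_ext]
    have hSX : ∀ j, ip (ext (s j) 0) V = ip (ext (x j) 0) U := fun j => by
      rw [hSV, hXU, hcomm]
    have hVS : ∀ j, ip V (ext (s j) 0) = ip U (ext (x j) 0) := fun j => by
      rw [← ip_star, hSX, ip_star]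
    -- reduced families
    obtain ⟨z, hz, hzz⟩ := ih
      (fun j : Fin k => ext (s j.succ) 0 - rm V (ip V (ext (s j.succ) 0)))
      (fun j : Fin k => ext (x j.succ) 0 - rm U (ip U (ext (x j.succ) 0)))
      (by
        intro i j
        simp only [ip_sub_left, ip_sub_right, ip_rm_left, ip_rm_right, hdv, hdu, ip_star, hVS, hSX,
          mul_one, one_mul, ip_ext, mul_zero, zero_add, star_zero, h i.succ j.succ])
      (Y - rm U (ip U Y))
    refine ⟨fun i => (rm V (ip U Y) + (z - rm V (ip V z))) (some i), ?_, ?_⟩
    · intro i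
      have e0 : ip (fun l => (rm V (ip U Y) + (z - rm V (ip V z))) (some l)) (s i)
          = ip (rm V (ip U Y) + (z - rm V (ip V z))) (ext (s i) 0) := by
        exact (ip_ext_right _ _).symm
      rw [e0]
      refine Fin.cases ?_ (fun j => ?_) i
      · rw [← hdvr, ip_rm_right, ip_add_left, ip_sub_left, ip_rm_left, ip_rm_left, hdv,
          mul_one, mul_one, ip_star, ip_star, sub_self, add_zero]
        have : ip y (x 0) = ip Y (ext (x 0) 0) := by simp [hY, ip_ext]
        rw [this, ← hdur, ip_rm_right]
      · have hj' : ip z (ext (s j.succ) 0) - ip z V * ip V (ext (s j.succ) 0)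
            = ip Y (ext (x j.succ) 0) - ip Y U * ip U (ext (x j.succ) 0) := by
          have hj := hz j
          simp only [ip_sub_left, ip_sub_right, ip_rm_left, ip_rm_right, hdu, ip_star, mul_one,
            one_mul] at hj
          rw [hj, sub_self, zero_mul, sub_zero]
        rw [ip_add_left, ip_sub_left, ip_rm_left, ip_rm_left, ip_star, ip_star, hj']
        have : ip y (x j.succ) = ip Y (ext (x j.succ) 0) := by simp [hY, ip_ext]
        rw [this, hVS]
        abel
    · have e1 : ip (fun l => (rm V (ip U Y) + (z - rm V (ip V z))) (some l))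
          (fun l => (rm V (ip U Y) + (z - rm V (ip V z))) (some l))
          ≤ ip (rm V (ip U Y) + (z - rm V (ip V z))) (rm V (ip U Y) + (z - rm V (ip V z))) := by
        rw [ip_option (rm V (ip U Y) + (z - rm V (ip V z)))]
        exact le_add_of_nonneg_left (star_mul_self_nonneg _)
      refine e1.trans ?_
      have e2 : ip (rm V (ip U Y) + (z - rm V (ip V z))) (rm V (ip U Y) + (z - rm V (ip V z)))
          = ip Y U * ip U Y + (ip z z - ip z V * ip V z) := by
        simp only [ip_add_left, ip_add_right, ip_sub_left, ip_sub_right, ip_rm_left, ip_rm_right,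
          hdv, ip_star, mul_one, one_mul, mul_sub, sub_mul, mul_add, add_mul, mul_assoc]
        abel
      have e3 : ip (Y - rm U (ip U Y)) (Y - rm U (ip U Y)) = ip Y Y - ip Y U * ip U Y := by
        simp only [ip_sub_left, ip_sub_right, ip_rm_left, ip_rm_right,
          hdu, ip_star, mul_one, one_mul, mul_sub, sub_mul, mul_assoc]
        abel
      have e4 : 0 ≤ ip z V * ip V z := by
        rw [← ip_star V z]; exact star_mul_self_nonneg _
      have e5 : ip y y = ip Y Y := by simp [hY, ip_ext]
      rw [e2, e5]
      rw [e3] at hzz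
      calc ip Y U * ip U Y + (ip z z - ip z V * ip V z) ≤ ip Y U * ip U Y + ip z z :=
            add_le_add_right (sub_le_self _ e4) _
        _ ≤ ip Y U * ip U Y + (ip Y Y - ip Y U * ip U Y) := add_le_add_right hzz _
        _ = ip Y Y := by abel

end Pool.Agent.Q92.CS
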