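import Pool.Agent.Q92.CS.Core

set_option autoImplicit false
set_option linter.unusedSectionVars false

/-!
# Douglas factorization in `C(X)`: exactly the F-spaces
-/

namespace Pool.Agent.Q92.CS

open Finset Filter Topology
open scoped ComplexOrder

variable {X : Type*} [TopologicalSpace X] [CompactSpace X]

/-- `X` is an F-space: disjoint cozero sets are completely separated. -/
def IsFSpace (X : Type*) [TopologicalSpace X] : Prop :=
  ∀ f g : C(X, ℝ), f * g = 0 → ∃ e : C(X, ℝ), ∀ x, (f x ≠ 0 → e x = 1) ∧ (g x ≠ 0 → e x = 0)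

lemma fspace_step (hX : IsFSpace X) (σ : C(X, ℝ)) (hσ : ∀ x, 0 ≤ σ x) (M : ℝ) (hM : 0 ≤ M)
    (u : C(X, ℝ)) (hu : ∀ x, |u x| ≤ M * σ x) :
    ∃ h : C(X, ℝ), (∀ x, |h x| ≤ 1 / 3 * M) ∧ ∀ x, |u x - h x * σ x| ≤ 2 / 3 * M * σ x := by
  obtain ⟨e, he⟩ := hX ⟨fun x => max (u x - M / 3 * σ x) 0, by fun_prop⟩
    ⟨fun x => max (-u x - M / 3 * σ x) 0, by fun_prop⟩ (by
      ext x
      simp only [ContinuousMap.mul_apply, ContinuousMap.coe_mk, ContinuousMap.zero_apply]
      have hs := mul_nonneg (by positivity : 0 ≤ M / 3) (hσ x)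
      rcases le_total (u x) 0 with h | h
      · rw [max_eq_right (by linarith), zero_mul]
      · rw [max_eq_right (by linarith : -u x - M / 3 * σ x ≤ 0), mul_zero])
  refine ⟨⟨fun x => M / 3 * (2 * max 0 (min 1 (e x)) - 1), by fun_prop⟩, fun x => ?_, fun x => ?_⟩
  · simp only [ContinuousMap.coe_mk]
    rw [abs_mul, abs_of_nonneg (by positivity : 0 ≤ M / 3)]
    have h1 : |2 * max 0 (min 1 (e x)) - 1| ≤ 1 := by
      have h2 : max 0 (min 1 (e x)) ≤ 1 := max_le zero_le_one (min_le_left _ _)
      have h3 : 0 ≤ max 0 (min 1 (e x)) := le_max_left _ _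
      rw [abs_le]; constructor <;> linarith
    nlinarith
  · simp only [ContinuousMap.coe_mk]
    have hs := hσ x
    have hMs := mul_nonneg hM hs
    obtain ⟨h1, h2⟩ := he x
    simp only [ContinuousMap.coe_mk] at h1 h2
    have hux := abs_le.1 (hu x)
    by_cases hf : M / 3 * σ x < u x
    · have := h1 (by rw [max_eq_left (by linarith)]; linarith)
      rw [this, min_self, max_eq_right (by norm_num : (0:ℝ) ≤ 1)]
      rw [abs_le]; constructor <;> nlinarith
    by_cases hg : M / 3 * σ x < -u x
    · have := h2 (by rw [max_eq_left (by linarith)]; linarith)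
      rw [this, min_eq_right (by norm_num : (0:ℝ) ≤ 1), max_self]
      rw [abs_le]; constructor <;> nlinarith
    push Not at hf hg
    have h2 : max 0 (min 1 (e x)) ≤ 1 := max_le zero_le_one (min_le_left _ _)
    have h3 : 0 ≤ max 0 (min 1 (e x)) := le_max_left _ _
    rw [abs_le]; constructor <;> nlinarith [mul_nonneg hMs h3, mul_nonneg hMs (sub_nonneg.2 h2)]

lemma fspace_div (hX : IsFSpace X) (σ : C(X, ℝ)) (hσ : ∀ x, 0 ≤ σ x) (u : C(X, ℝ))
    (hu : ∀ x, |u x| ≤ σ x) : ∃ φ : C(X, ℝ), ∀ x, u x = φ x * σ x := by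
  have hstep : ∀ (n : ℕ) (v : C(X, ℝ)), (∀ x, |v x| ≤ (2 / 3) ^ n * σ x) →
      ∃ h : C(X, ℝ), (∀ x, |h x| ≤ 1 / 3 * (2 / 3) ^ n) ∧
        ∀ x, |v x - h x * σ x| ≤ (2 / 3) ^ (n + 1) * σ x := by
    intro n v hv
    obtain ⟨h, h1, h2⟩ := fspace_step hX σ hσ ((2 / 3) ^ n) (by positivity) v hv
    refine ⟨h, h1, fun x => (h2 x).trans (le_of_eq (by ring))⟩
  choose! H hH using hstep
  let v : ℕ → C(X, ℝ) := fun n => Nat.rec u (fun n v => v - H n v * σ) n
  have hv0 : v 0 = u := rfl
  have hvs : ∀ n, v (n + 1) = v n - H n (v n) * σ := fun n => rfl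
  have hv : ∀ n x, |v n x| ≤ (2 / 3) ^ n * σ x := by
    intro n
    induction n with
    | zero => intro x; simpa [hv0] using hu x
    | succ n ih =>
      intro x
      rw [hvs]
      exact (hH n (v n) ih).2 x
  have hsum : Summable fun n => H n (v n) := by
    apply Summable.of_norm_bounded (g := fun n => 1 / 3 * (2 / 3 : ℝ) ^ n)
    · exact (summable_geometric_of_lt_one (by norm_num) (by norm_num)).mul_left _
    · intro n
      rw [ContinuousMap.norm_le _ (by positivity)]
      intro x
      exact (hH n (v n) (hv n)).1 x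
  refine ⟨∑' n, H n (v n), fun x => ?_⟩
  have h1 : ∀ n, v n x = u x - (∑ i ∈ range n, H i (v i) x) * σ x := by
    intro n
    induction n with
    | zero => simp [hv0]
    | succ n ih =>
      rw [hvs, ContinuousMap.sub_apply, ContinuousMap.mul_apply, ih, sum_range_succ]
      ring
  have h2 : Tendsto (fun n => v n x) atTop (𝓝 0) := by
    apply squeeze_zero_norm (a := fun n => (2 / 3 : ℝ) ^ n * σ x)
    · intro n; exact hv n x
    · have := (tendsto_pow_atTop_nhds_zero_of_lt_one (by norm_num : (0:ℝ) ≤ 2 / 3)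
        (by norm_num)).mul_const (σ x)
      simpa using this
  have h3 : Tendsto (fun n => ∑ i ∈ range n, H i (v i) x) atTop (𝓝 ((∑' n, H n (v n)) x)) := by
    have h4 : HasSum (fun n => H n (v n) x) ((∑' n, H n (v n)) x) :=
      hsum.hasSum.map (ContinuousMap.evalCLM ℝ x) (ContinuousMap.evalCLM ℝ x).continuous
    exact h4.tendsto_sum_nat
  have h4 : Tendsto (fun n => v n x) atTop (𝓝 (u x - (∑' n, H n (v n)) x * σ x)) := by
    simp only [h1]
    exact (h3.mul_const _).const_sub _
  have := tendsto_nhds_unique h2 h4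
  linarith

theorem df_iff_fspace : DF C(X, ℂ) ↔ IsFSpace X := by
  constructor
  · intro hD f g hfg
    obtain ⟨q, hq0, hq1, hqr, hqy⟩ := sep hD (J := Unit)
      (fun _ => (⟨fun x => (f x : ℂ), by fun_prop⟩ : C(X, ℂ)))
      (⟨fun x => ((g x * g x : ℝ) : ℂ), by fun_prop⟩ : C(X, ℂ))
      (by
        intro x
        show (0 : ℂ) ≤ ((g x * g x : ℝ) : ℂ)
        exact_mod_cast mul_self_nonneg (g x))
      (by
        intro _
        ext x
        have := congrArg (fun F : C(X, ℝ) => F x) hfg
        simp only [ContinuousMap.mul_apply, ContinuousMap.zero_apply] at this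
        simp only [ContinuousMap.mul_apply, ContinuousMap.coe_mk, ContinuousMap.zero_apply]
        norm_cast
        rw [← mul_assoc, this, zero_mul])
    refine ⟨⟨fun x => (q x).re, by fun_prop⟩, fun x => ⟨fun hx => ?_, fun hx => ?_⟩⟩
    · have := congrArg (fun F : C(X, ℂ) => F x) (hqy ())
      simp only [ContinuousMap.mul_apply, ContinuousMap.coe_mk] at this
      have h1 : q x = 1 := by
        have hne : (f x : ℂ) ≠ 0 := by exact_mod_cast hx
        exact mul_left_cancel₀ hne (by rw [this, mul_one])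
      simp [h1]
    · have := congrArg (fun F : C(X, ℂ) => F x) hqr
      simp only [ContinuousMap.mul_apply, ContinuousMap.coe_mk, ContinuousMap.zero_apply] at this
      have h1 : q x = 0 := by
        have hne : ((g x * g x : ℝ) : ℂ) ≠ 0 := by exact_mod_cast mul_self_ne_zero.2 hx
        exact (mul_eq_zero.1 this).resolve_right hne
      simp [h1]
  · intro hX x s hxs
    have hle : ∀ p, ‖x p‖ ≤ ‖s p‖ := by
      intro p
      have : star (x p) * x p ≤ star (s p) * s p := hxs p
      rw [Complex.star_def, ← Complex.normSq_eq_conj_mul_self,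
        ← Complex.normSq_eq_conj_mul_self, Complex.real_le_real, Complex.normSq_eq_norm_sq,
        Complex.normSq_eq_norm_sq] at this
      exact le_of_sq_le_sq this (norm_nonneg _)
    let σ : C(X, ℝ) := ⟨fun p => ‖s p‖ ^ 2, by fun_prop⟩
    have hσ : ∀ p, 0 ≤ σ p := fun p => by simp only [σ, ContinuousMap.coe_mk]; positivity
    have hnorm : ∀ p, ‖x p * star (s p)‖ ≤ ‖s p‖ ^ 2 := by
      intro p
      rw [norm_mul, norm_star, sq]
      exact mul_le_mul_of_nonneg_right (hle p) (norm_nonneg _)
    obtain ⟨φ, hφ⟩ := fspace_div hX σ hσ ⟨fun p => (x p * star (s p)).re, by fun_prop⟩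
      (fun p => (Complex.abs_re_le_norm _).trans (hnorm p))
    obtain ⟨ψ, hψ⟩ := fspace_div hX σ hσ ⟨fun p => (x p * star (s p)).im, by fun_prop⟩
      (fun p => (Complex.abs_im_le_norm _).trans (hnorm p))
    let w0 : C(X, ℂ) := ⟨fun p => (φ p : ℂ) + (ψ p : ℂ) * Complex.I, by fun_prop⟩
    have hw0 : ∀ p, x p = w0 p * s p := by
      intro p
      by_cases hs : s p = 0
      · have : x p = 0 := by
          have := hle p
          rw [hs, norm_zero] at this
          exact norm_le_zero_iff.1 this
        rw [this, hs, mul_zero]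
      · have h1 : x p * star (s p) = w0 p * ((‖s p‖ ^ 2 : ℝ) : ℂ) := by
          have e1 := hφ p
          have e2 := hψ p
          simp only [ContinuousMap.coe_mk, σ] at e1 e2
          simp only [w0, ContinuousMap.coe_mk]
          generalize ‖s p‖ ^ 2 = N at e1 e2
          apply Complex.ext
          · rw [e1]; simp
          · rw [e2]; simp
        have h2 : (((‖s p‖ ^ 2 : ℝ)) : ℂ) = s p * star (s p) := by
          rw [Complex.star_def, Complex.mul_conj, Complex.normSq_eq_norm_sq]
        have hs' : star (s p) ≠ 0 := by simpa using hs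
        rw [h2, ← mul_assoc] at h1
        exact mul_right_cancel₀ hs' h1
    let w : C(X, ℂ) := ⟨fun p => w0 p / ((max 1 ‖w0 p‖ : ℝ) : ℂ), by
      apply Continuous.div (by fun_prop) (by fun_prop)
      intro p
      have : (0:ℝ) < max 1 ‖w0 p‖ := lt_of_lt_of_le one_pos (le_max_left _ _)
      exact_mod_cast this.ne'⟩
    refine ⟨w, ?_, ?_⟩
    · rw [ContinuousMap.le_def]
      intro p
      simp only [ContinuousMap.mul_apply, ContinuousMap.star_apply, ContinuousMap.one_apply]
      rw [Complex.star_def, ← Complex.normSq_eq_conj_mul_self, Complex.normSq_eq_norm_sq]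
      have hpos : (0:ℝ) < max 1 ‖w0 p‖ := lt_of_lt_of_le one_pos (le_max_left _ _)
      have h1 : ‖w p‖ ≤ 1 := by
        simp only [w, ContinuousMap.coe_mk]
        rw [norm_div, Complex.norm_real, Real.norm_of_nonneg hpos.le, div_le_one hpos]
        exact le_max_right _ _
      have h2 : ‖w p‖ ^ 2 ≤ 1 := by nlinarith [norm_nonneg (w p)]
      exact_mod_cast h2
    · ext p
      rw [ContinuousMap.mul_apply]
      by_cases hs : s p = 0
      · rw [hw0, hs, mul_zero, mul_zero]
      · have h1 : ‖w0 p‖ ≤ 1 := by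
          have h2 := hle p
          rw [hw0 p, norm_mul] at h2
          have h3 : 0 < ‖s p‖ := norm_pos_iff.2 hs
          by_contra hc
          push Not at hc
          nlinarith
        have h2 : w p = w0 p := by
          simp only [w, ContinuousMap.coe_mk]
          rw [max_eq_left h1]
          simp
        rw [h2, hw0]

end Pool.Agent.Q92.CS
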