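import Pool.Agent.Q92.CS.Core
import Pool.Agent.H255R3.STC.Chordal

set_option autoImplicit false
set_option linter.unusedSectionVars false

/-!
# Positive completions over a unital C*-algebra
-/

namespace Pool.Agent.Q92.CS

open Finset Pool.Agent.H255R3.STC

variable {A : Type*} [CStarAlgebra A] [PartialOrder A] [StarOrderedRing A]

/-- The principal submatrix on the set `K` of vertices. -/
def principal {V : Type} (M : CStarMatrix V V A) (K : Finset V) : CStarMatrix K K A :=
  CStarMatrix.ofMatrix fun i j => M i j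

/-- `Γ ∈ G(A)`: every matrix over `A` whose principal submatrices on the cliques of `Γ` are
positive has a positive completion. -/
def InG (A : Type*) [CStarAlgebra A] [PartialOrder A] [StarOrderedRing A] {V : Type} [Fintype V]
    (Γ : SimpleGraph V) : Prop :=
  ∀ M : CStarMatrix V V A, (∀ K : Finset V, Γ.IsClique K → 0 ≤ principal M K) →
    ∃ Y : CStarMatrix V V A, 0 ≤ Y ∧ ∀ i j, (i = j ∨ Γ.Adj i j) → Y i j = M i j

lemma nonneg_iff {B : Type*} [NonUnitalCStarAlgebra B] [PartialOrder B] [StarOrderedRing B]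
    {a : B} : 0 ≤ a ↔ ∃ x, a = star x * x := CStarAlgebra.nonneg_iff_eq_star_mul_self

lemma gram_of_nonneg {V : Type} [Fintype V] (M : CStarMatrix V V A) (h : 0 ≤ M) :
    ∃ g : V → V → A, ∀ i j, M i j = ip (g i) (g j) := by
  obtain ⟨R, rfl⟩ := nonneg_iff.1 h
  refine ⟨fun i k => R k i, fun i j => ?_⟩
  rw [CStarMatrix.mul_apply]
  simp [ip, CStarMatrix.star_apply]

lemma nonneg_of_gram {V : Type} [Fintype V] {ι : Type*} [Fintype ι] (M : CStarMatrix V V A)
    (g : V → ι → A) (h : ∀ i j, M i j = ip (g i) (g j)) : 0 ≤ M := by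
  classical
  rcases isEmpty_or_nonempty V with hV | ⟨⟨a⟩⟩
  · exact le_of_eq (CStarMatrix.ext fun i => hV.elim i)
  have : M = ∑ l : ι, star (CStarMatrix.ofMatrix fun k j => if k = a then g j l else 0)
      * (CStarMatrix.ofMatrix fun k j => if k = a then g j l else 0 : CStarMatrix V V A) := by
    ext i j
    have hs : ∀ (T : Finset ι) (F : ι → CStarMatrix V V A), (∑ l ∈ T, F l) i j = ∑ l ∈ T, F l i j := by
      intro T F
      induction T using Finset.induction_on with
      | empty => simp
      | insert a T ha ih => rw [sum_insert ha, sum_insert ha, CStarMatrix.add_apply, ih]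
    rw [hs, h]
    refine sum_congr rfl fun l _ => ?_
    rw [CStarMatrix.mul_apply, Finset.sum_eq_single a]
    · simp [CStarMatrix.star_apply]
    · intro b _ hb
      simp [CStarMatrix.star_apply, hb]
    · simp
  rw [this]
  exact sum_nonneg fun l _ => star_mul_self_nonneg _

/-- adding one entry to all columns -/
lemma ip_ext_zero {ι : Type*} [Fintype ι] (x y : ι → A) :
    ip (ext x 0) (ext y 0) = ip x y := by simp [ip_ext]

lemma transfer' (hD : DF A) {I : Type} [Fintype I] {ι κ : Type} [Fintype ι] [Fintype κ]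
    (s : I → ι → A) (x : I → κ → A) (h : ∀ i j, ip (s i) (s j) = ip (x i) (x j))
    (y : κ → A) : ∃ (z : ι → A) (d : A), (∀ i, ip z (s i) = ip y (x i)) ∧
      star d * d + ip z z = ip y y := by
  obtain ⟨z, hz, hzz⟩ := transfer hD (Fintype.card I) (fun i => s ((Fintype.equivFin I).symm i))
    (fun i => x ((Fintype.equivFin I).symm i)) (fun i j => h _ _) y
  obtain ⟨d, hd0, hds, hdd⟩ := exists_sqrt (sub_nonneg.2 hzz)
  refine ⟨z, d, fun i => ?_, ?_⟩
  · simpa using hz (Fintype.equivFin I i)
  · rw [hds, hdd]; abel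

/-- Completion of a partial positive matrix on a chordal graph. -/
lemma chordal_gram (hD : DF A) {V : Type} [Fintype V] {Γ : SimpleGraph V} (hΓ : IsChordal Γ)
    (M : CStarMatrix V V A) (hM : ∀ K : Finset V, Γ.IsClique K → 0 ≤ principal M K) :
    ∀ (n : ℕ) (s : Finset V), s.card = n → ∃ (ι : Type) (_ : Fintype ι) (g : V → ι → A),
      ∀ i ∈ s, ∀ j ∈ s, (i = j ∨ Γ.Adj i j) → ip (g i) (g j) = M i j := by
  classical
  intro n
  induction n with
  | zero =>
    intro s hs
    rw [Finset.card_eq_zero] at hs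
    subst hs
    exact ⟨PEmpty, inferInstance, fun _ => 0, by simp⟩
  | succ n ih =>
    intro s hs
    -- a simplicial vertex
    obtain ⟨z, hzs, hz⟩ : ∃ z ∈ s, ∀ a ∈ s, ∀ b ∈ s, Γ.Adj z a → Γ.Adj z b → a ≠ b → Γ.Adj a b := by
      by_cases hc : ∃ v ∈ s, ∃ w ∈ s, w ≠ v ∧ ¬ Γ.Adj v w
      · obtain ⟨v, hv, w, hw, hwv, hvw⟩ := hc
        obtain ⟨z, hzs, _, _, hz⟩ := exists_simplicial hΓ _ s le_rfl v hv w hw hwv hvw
        exact ⟨z, hzs, hz⟩
      · push Not at hc
        obtain ⟨z, hz⟩ : s.Nonempty := by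
          rw [← Finset.card_pos, hs]; omega
        exact ⟨z, hz, fun a ha b hb _ _ hab => (hc a ha b hb hab.symm)⟩
    obtain ⟨ι, _, g, hg⟩ := ih (s.erase z) (by rw [Finset.card_erase_of_mem hzs, hs]; omega)
    set N : Finset V := (s.erase z).filter (fun a => Γ.Adj z a) with hN
    have hK : Γ.IsClique (insert z N : Finset V) := by
      intro a ha b hb hab
      simp only [coe_insert, Set.mem_insert_iff, mem_coe, hN, mem_filter, mem_erase] at ha hb
      rcases ha with rfl | ⟨⟨_, ha⟩, ha'⟩ <;> rcases hb with rfl | ⟨⟨_, hb⟩, hb'⟩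
      · exact absurd rfl hab
      · exact hb'
      · exact ha'.symm
      · exact hz a ha b hb ha' hb' hab
    obtain ⟨x, hx⟩ := gram_of_nonneg _ (hM _ hK)
    have hzK : z ∈ insert z N := mem_insert_self _ _
    have hNK : ∀ a : N, (a : V) ∈ insert z N := fun a => mem_insert_of_mem a.2
    have hNs : ∀ a : N, (a : V) ∈ s.erase z := fun a => (mem_filter.1 a.2).1
    have hMx : ∀ i j : (insert z N : Finset V), M i j = ip (x i) (x j) := fun i j => hx i j
    obtain ⟨w, d, hw, hd⟩ := transfer' hD (fun a : N => g a) (fun a : N => x ⟨a, hNK a⟩)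
      (by
        intro i j
        rw [← hMx ⟨i, hNK i⟩ ⟨j, hNK j⟩]
        apply hg i (hNs i) j (hNs j)
        by_cases hij : (i : V) = j
        · exact Or.inl hij
        · exact Or.inr (hK (hNK i) (hNK j) hij)) (x ⟨z, hzK⟩)
    refine ⟨Option ι, inferInstance, fun i => if i = z then ext w d else ext (g i) 0, ?_⟩
    intro i hi j hj hij
    have key : ∀ j ∈ s, j ≠ z → Γ.Adj z j → ip (ext w d) (ext (g j) 0) = M z j := by
      intro j hj hjz hzj
      have hjN : j ∈ N := by
        rw [hN, mem_filter, mem_erase]; exact ⟨⟨hjz, hj⟩, hzj⟩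
      rw [ip_ext, mul_zero, zero_add, hw ⟨j, hjN⟩, ← hMx ⟨z, hzK⟩ ⟨j, hNK ⟨j, hjN⟩⟩]
    by_cases hiz : i = z
    · subst hiz
      by_cases hjz : j = i
      · subst hjz
        simp only [if_true]
        rw [ip_ext, hd, ← hMx ⟨j, hzK⟩ ⟨j, hzK⟩]
      · simp only [if_true, hjz, if_false]
        exact key j hj hjz (by
          rcases hij with h | h
          · exact absurd h.symm hjz
          · exact h)
    · by_cases hjz : j = z
      · subst hjz
        simp only [if_true, hiz, if_false]
        have hadj : Γ.Adj j i := by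
          rcases hij with h | h
          · exact absurd h hiz
          · exact h.symm
        have hiN : i ∈ N := by
          rw [hN, mem_filter, mem_erase]; exact ⟨⟨hiz, hi⟩, hadj⟩
        have h1 := key i hi hiz hadj
        have h2 : M i j = star (M j i) := by
          have e1 := hMx ⟨i, hNK ⟨i, hiN⟩⟩ ⟨j, hzK⟩
          have e2 := hMx ⟨j, hzK⟩ ⟨i, hNK ⟨i, hiN⟩⟩
          simp only at e1 e2
          rw [e1, e2, ip_star]
        rw [h2, ← h1, ip_star]
      · simp only [hiz, hjz, if_false]
        rw [ip_ext_zero]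
        exact hg i (mem_erase.2 ⟨hiz, hi⟩) j (mem_erase.2 ⟨hjz, hj⟩) hij

theorem inG_of_chordal (hD : DF A) {V : Type} [Fintype V] {Γ : SimpleGraph V}
    (hΓ : IsChordal Γ) : InG A Γ := by
  intro M hM
  obtain ⟨ι, _, g, hg⟩ := chordal_gram hD hΓ M hM _ Finset.univ rfl
  refine ⟨CStarMatrix.ofMatrix fun i j => ip (g i) (g j),
    nonneg_of_gram _ g (fun i j => rfl), fun i j hij => ?_⟩
  exact hg i (mem_univ i) j (mem_univ j) hij

/-- An induced path on three vertices gives Douglas factorization. -/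
theorem df_of_inG {V : Type} [Fintype V] {Γ : SimpleGraph V} (h : InG A Γ) {a b c : V}
    (hab : Γ.Adj a b) (hbc : Γ.Adj b c) (hac : a ≠ c) (hnac : ¬ Γ.Adj a c) : DF A := by
  classical
  intro x s hxs
  obtain ⟨d, hd0, hds, hdd⟩ := exists_sqrt (sub_nonneg.2 hxs)
  have hab' : a ≠ b := hab.ne
  have hbc' : b ≠ c := hbc.ne
  let α : V → Option Unit → A := fun v =>
    if v = a then ext (fun _ => 1) 0 else if v = b then ext (fun _ => x) d else 0
  let β : V → Unit → A := fun v => if v = b then fun _ => s else if v = c then fun _ => 1 else 0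
  have hαβ : ∀ i j, i ≠ a → i ≠ c → j ≠ a → j ≠ c → ip (α i) (α j) = ip (β i) (β j) := by
    intro i j hia hic hja hjc
    by_cases hib : i = b
    · by_cases hjb : j = b
      · subst hib; subst hjb
        simp only [α, β, hia, if_false, if_true]
        rw [ip_ext, hds, hdd]
        simp [ip]
      · simp only [α, β, hia, hja, hjb, hjc, if_false]
        simp [ip]
    · simp only [α, β, hia, hib, hic, if_false]
      simp [ip]
  let M : CStarMatrix V V A := CStarMatrix.ofMatrix fun i j =>
    if i = c ∨ j = c then ip (β i) (β j) else ip (α i) (α j)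
  have hMd : ∀ i j, M i j = if i = c ∨ j = c then ip (β i) (β j) else ip (α i) (α j) :=
    fun i j => rfl
  obtain ⟨Y, hY, hYM⟩ := h M (by
    intro K hK
    by_cases hcK : c ∈ K
    · have haK : a ∉ K := fun haK => hnac (hK haK hcK hac)
      apply nonneg_of_gram _ (fun i : K => β i)
      intro i j
      show M i j = _
      rw [hMd]
      split_ifs with h1
      · rfl
      · push Not at h1
        exact hαβ i j (fun e => haK (e ▸ i.2)) h1.1 (fun e => haK (e ▸ j.2)) h1.2
    · apply nonneg_of_gram _ (fun i : K => α i)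
      intro i j
      show M i j = _
      rw [hMd, if_neg]
      rintro (h1 | h1)
      · exact hcK (h1 ▸ i.2)
      · exact hcK (h1 ▸ j.2))
  obtain ⟨g, hg⟩ := gram_of_nonneg _ hY
  have gaa : ip (g a) (g a) = 1 := by
    rw [← hg, hYM a a (Or.inl rfl), hMd, if_neg (by simp [hac])]
    simp only [α, if_true]
    rw [ip_ext]; simp [ip]
  have gab : ip (g a) (g b) = x := by
    rw [← hg, hYM a b (Or.inr hab), hMd, if_neg (by simp [hac, hbc'])]
    simp only [α, if_true, hab'.symm, if_false]
    rw [ip_ext]; simp [ip]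
  have gbb : ip (g b) (g b) = star s * s := by
    rw [← hg, hYM b b (Or.inl rfl), hMd, if_neg (by simp [hbc']), hαβ b b hab'.symm hbc' hab'.symm hbc']
    simp [β, ip]
  have gbc : ip (g b) (g c) = star s := by
    rw [← hg, hYM b c (Or.inr hbc), hMd, if_pos (by simp)]
    simp [β, ip, hbc'.symm]
  have gcb : ip (g c) (g b) = s := by
    rw [← ip_star, gbc, star_star]
  have gcc : ip (g c) (g c) = 1 := by
    rw [← hg, hYM c c (Or.inl rfl), hMd, if_pos (by simp)]
    simp [β, ip, hbc'.symm]
  have hz : g b - rm (g c) s = 0 := by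
    apply eq_zero_of_ip_self
    simp only [ip_sub_left, ip_sub_right, ip_rm_left, ip_rm_right, gbb, gbc, gcb, gcc]
    simp
  refine ⟨ip (g a) (g c), ?_, ?_⟩
  · have h0 := ip_self_nonneg (g c - rm (g a) (ip (g a) (g c)))
    simp only [ip_sub_left, ip_sub_right, ip_rm_left, ip_rm_right, gaa, gcc, one_mul] at h0
    rw [ip_star, mul_one, sub_self, zero_mul, sub_zero] at h0
    rw [ip_star]
    exact sub_nonneg.1 h0
  · have : g b = rm (g c) s := sub_eq_zero.1 hz
    calc x = ip (g a) (g b) := gab.symm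
      _ = ip (g a) (rm (g c) s) := by rw [this]
      _ = _ := ip_rm_right _ _ _

/-- Graphs in `G(A)` are chordal. -/
theorem chordal_of_inG [Nontrivial A] {V : Type} [Fintype V] {Γ : SimpleGraph V} (h : InG A Γ) :
    IsChordal Γ := by
  classical
  intro n hn
  by_contra hne
  rw [not_isEmpty_iff] at hne
  obtain ⟨e⟩ := hne
  obtain ⟨k, rfl⟩ : ∃ k, n = k + 2 := ⟨n - 2, by omega⟩
  let o : Fin (k + 2) := 0
  let l : Fin (k + 2) := ⟨k + 1, by omega⟩
  have hol : o ≠ l := by
    intro h
    have := congrArg Fin.val h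
    simp [o, l] at this
  have heol : e o ≠ e l := fun h => hol (e.injective h)
  let α : V → Unit → A := fun v => if v ∈ Set.range e then fun _ => 1 else 0
  let β : V → Unit → A := fun v => if v = e o then fun _ => -1 else
    if v ∈ Set.range e then fun _ => 1 else 0
  let M : CStarMatrix V V A := CStarMatrix.ofMatrix fun i j =>
    if (i = e o ∧ j = e l) ∨ (i = e l ∧ j = e o) then ip (β i) (β j) else ip (α i) (α j)
  have hMd : ∀ i j, M i j = if (i = e o ∧ j = e l) ∨ (i = e l ∧ j = e o) then ip (β i) (β j)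
    else ip (α i) (α j) := fun i j => rfl
  obtain ⟨Y, hY, hYM⟩ := h M (by
    intro K hK
    by_cases hcK : e o ∈ K ∧ e l ∈ K
    · have hout : ∀ v ∈ K, v ≠ e o → v ≠ e l → v ∉ Set.range e := by
        rintro v hv hvo hvl ⟨a, rfl⟩
        have h1 := hK hv hcK.1 hvo
        have h2 := hK hv hcK.2 hvl
        rw [e.map_adj_iff, cycle_adj] at h1 h2
        have ha := a.isLt
        simp only [o, l, Fin.val_zero] at h1 h2
        omega
      apply nonneg_of_gram _ (fun i : K => β i)
      intro i j
      show M i j = _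
      rw [hMd]
      split_ifs with h1
      · rfl
      · push Not at h1
        have cases : ∀ v : K, ((v : V) = e o ∨ (v : V) = e l) ∨ (α v = 0 ∧ β v = 0) := by
          intro v
          by_cases hvo : (v : V) = e o
          · exact Or.inl (Or.inl hvo)
          by_cases hvl : (v : V) = e l
          · exact Or.inl (Or.inr hvl)
          right
          have := hout v v.2 hvo hvl
          simp only [α, β, hvo, this, if_false, and_self]
        rcases cases i with (hi | hi) | ⟨hi1, hi2⟩
        · rcases cases j with (hj | hj) | ⟨hj1, hj2⟩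
          · simp [hi, hj, α, β, ip]
          · exact absurd hj (h1.1 hi)
          · simp [hj1, hj2, ip]
        · rcases cases j with (hj | hj) | ⟨hj1, hj2⟩
          · exact absurd hj (h1.2 hi)
          · simp [hi, hj, α, β, ip, heol.symm]
          · simp [hj1, hj2, ip]
        · simp [hi1, hi2, ip]
    · apply nonneg_of_gram _ (fun i : K => α i)
      intro i j
      show M i j = _
      rw [hMd, if_neg]
      rintro (⟨h1, h2⟩ | ⟨h1, h2⟩)
      · exact hcK ⟨h1 ▸ i.2, h2 ▸ j.2⟩
      · exact hcK ⟨h2 ▸ j.2, h1 ▸ i.2⟩)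
  obtain ⟨g, hg⟩ := gram_of_nonneg _ hY
  have gdiag : ∀ a, ip (g (e a)) (g (e a)) = 1 := by
    intro a
    rw [← hg, hYM _ _ (Or.inl rfl), hMd, if_neg]
    · simp [α, ip]
    · rintro (⟨h1, h2⟩ | ⟨h1, h2⟩)
      · exact heol (h1.symm.trans h2)
      · exact heol (h2.symm.trans h1)
  have gstep : ∀ a b : Fin (k + 2), a.val + 1 = b.val → g (e a) = g (e b) := by
    intro a b hab
    have hadj : Γ.Adj (e a) (e b) := by
      rw [e.map_adj_iff, cycle_adj]; exact Or.inl hab
    have hne : a ≠ b := by rintro rfl; omega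
    have hM1 : ∀ p q : Fin (k + 2), (p = a ∧ q = b) ∨ (p = b ∧ q = a) → M (e p) (e q) = 1 := by
      intro p q hpq
      rw [hMd, if_neg]
      · simp [α, ip]
      · rintro (⟨h1, h2⟩ | ⟨h1, h2⟩)
        · have h1' := congrArg Fin.val (e.injective h1)
          have h2' := congrArg Fin.val (e.injective h2)
          simp only [o, l, Fin.val_zero] at h1' h2'
          rcases hpq with ⟨rfl, rfl⟩ | ⟨rfl, rfl⟩ <;> omega
        · have h1' := congrArg Fin.val (e.injective h1)
          have h2' := congrArg Fin.val (e.injective h2)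
          simp only [o, l, Fin.val_zero] at h1' h2'
          rcases hpq with ⟨rfl, rfl⟩ | ⟨rfl, rfl⟩ <;> omega
    have h1 : ip (g (e a)) (g (e b)) = 1 := by
      rw [← hg, hYM _ _ (Or.inr hadj)]
      exact hM1 a b (Or.inl ⟨rfl, rfl⟩)
    have h2 : ip (g (e b)) (g (e a)) = 1 := by
      rw [← hg, hYM _ _ (Or.inr hadj.symm)]
      exact hM1 b a (Or.inr ⟨rfl, rfl⟩)
    have : g (e a) - g (e b) = 0 := by
      apply eq_zero_of_ip_self
      simp only [ip_sub_left, ip_sub_right, gdiag, h1, h2]
      simp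
    exact sub_eq_zero.1 this
  have gall : ∀ (m : ℕ) (hm : m < k + 2), g (e ⟨m, hm⟩) = g (e o) := by
    intro m
    induction m with
    | zero => intro hm; rfl
    | succ m ih =>
      intro hm
      rw [← gstep ⟨m, by omega⟩ ⟨m + 1, hm⟩ rfl]
      exact ih _
  have hlo : Γ.Adj (e o) (e l) := by
    rw [e.map_adj_iff, cycle_adj]; simp [o, l]
  have h1 : ip (g (e o)) (g (e l)) = -1 := by
    rw [← hg, hYM _ _ (Or.inr hlo), hMd, if_pos (Or.inl ⟨rfl, rfl⟩)]
    simp [β, ip, heol.symm]
  have h2 : g (e l) = g (e o) := gall _ _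
  rw [h2, gdiag] at h1
  have h3 : (2 : ℂ) • (1 : A) = 0 := by
    rw [two_smul]
    nth_rewrite 2 [h1]
    simp
  rw [smul_eq_zero] at h3
  rcases h3 with h3 | h3
  · norm_num at h3
  · exact one_ne_zero h3

end Pool.Agent.Q92.CS
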