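import Pool.Agent.Q92.CS.Graph

set_option autoImplicit false
set_option linter.unusedSectionVars false

/-!
# Matrix amplifications and cluster graphs
-/

namespace Pool.Agent.Q92.CS

open Finset Pool.Agent.H255R3.STC

variable {A : Type*} [CStarAlgebra A] [PartialOrder A] [StarOrderedRing A]

lemma ip_sum {ι τ : Type*} [Fintype ι] [Fintype τ] (x y : ι ⊕ τ → A) :
    ip x y = ip (fun i => x (Sum.inl i)) (fun i => y (Sum.inl i)) +
      ip (fun i => x (Sum.inr i)) (fun i => y (Sum.inr i)) := by
  simp [ip, Fintype.sum_sum_type]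

lemma transfer_multi (hD : DF A) {I : Type} [Fintype I] {ι κ : Type} [Fintype ι] [Fintype κ]
    (s : I → ι → A) (x : I → κ → A) (h : ∀ i j, ip (s i) (s j) = ip (x i) (x j)) :
    ∀ (p : ℕ) (y : Fin p → κ → A), ∃ (τ : Type) (_ : Fintype τ) (z : Fin p → ι → A)
      (t : Fin p → τ → A), (∀ a i, ip (z a) (s i) = ip (y a) (x i)) ∧
        ∀ a b, ip (z a) (z b) + ip (t a) (t b) = ip (y a) (y b) := by
  intro p
  induction p with
  | zero =>
    intro y
    exact ⟨PEmpty, inferInstance, fun _ => 0, fun _ => 0, fun a => a.elim0, fun a => a.elim0⟩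
  | succ p ih =>
    intro y
    obtain ⟨τ, _, z, t, hz, ht⟩ := ih (fun a => y a.succ)
    obtain ⟨w, d, hw, hd⟩ := transfer' hD (I := I ⊕ Fin p) (ι := ι ⊕ τ) (κ := κ)
      (Sum.elim (fun i => Sum.elim (s i) 0) (fun a => Sum.elim (z a) (t a)))
      (Sum.elim x (fun a => y a.succ))
      (by
        rintro (i | a) (j | b)
        · rw [ip_sum]
          simp [h i j, ip]
          simpa [ip] using h i j
        · rw [ip_sum]
          have e : ip (s i) (z b) = ip (x i) (y b.succ) := by
            rw [← ip_star, hz b i, ip_star]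
          simp only [Sum.elim_inl, Sum.elim_inr]
          rw [← e]
          simp [ip]
        · rw [ip_sum]
          simp only [Sum.elim_inl, Sum.elim_inr]
          rw [← hz a j]
          simp [ip]
        · rw [ip_sum]
          simp only [Sum.elim_inl, Sum.elim_inr]
          exact ht a b) (y 0)
    have hw1 : ∀ i, ip (fun l => w (Sum.inl l)) (s i) = ip (y 0) (x i) := by
      intro i
      have := hw (Sum.inl i)
      simp only [Sum.elim_inl] at this
      rw [← this, ip_sum]
      simp [ip]
    have hw2 : ∀ a, ip (fun l => w (Sum.inl l)) (z a) + ip (fun l => w (Sum.inr l)) (t a)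
        = ip (y 0) (y a.succ) := by
      intro a
      have := hw (Sum.inr a)
      simp only [Sum.elim_inr] at this
      rw [← this, ip_sum]
      rfl
    refine ⟨Option τ, inferInstance, Fin.cons (fun l => w (Sum.inl l)) z,
      Fin.cons (ext (fun l => w (Sum.inr l)) d) (fun a => ext (t a) 0), ?_, ?_⟩
    · intro a i
      refine Fin.cases ?_ (fun a => ?_) a
      · simpa using hw1 i
      · simpa using hz a i
    · intro a b
      refine Fin.cases ?_ (fun a => ?_) a
      · refine Fin.cases ?_ (fun b => ?_) b
        · simp only [Fin.cons_zero]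
          rw [ip_ext, ← hd, ip_sum w w]
          abel
        · simp only [Fin.cons_zero, Fin.cons_succ]
          rw [ip_ext, mul_zero, zero_add]
          exact hw2 b
      · refine Fin.cases ?_ (fun b => ?_) b
        · simp only [Fin.cons_zero, Fin.cons_succ]
          rw [ip_ext, star_zero, zero_mul, zero_add]
          have := congrArg star (hw2 a)
          simpa only [star_add, ip_star] using this
        · simp only [Fin.cons_succ]
          rw [ip_ext_zero]
          exact ht a b

theorem df_matrix (hD : DF A) (m : ℕ) : DF (CStarMatrix (Fin m) (Fin m) A) := by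
  classical
  intro X S hXS
  obtain ⟨D, hDD⟩ := nonneg_iff.1 (sub_nonneg.2 hXS)
  have hent : ∀ (P Q : CStarMatrix (Fin m) (Fin m) A) i j,
      (star P * Q) i j = ip (fun k => P k i) (fun k => Q k j) := by
    intro P Q i j
    rw [CStarMatrix.mul_apply]
    simp [ip, CStarMatrix.star_apply]
  have hSX : star S * S = star X * X + star D * D := by rw [← hDD]; abel
  obtain ⟨τ, _, z, t, hz, ht⟩ := transfer_multi hD (I := Fin m) (ι := Fin m) (κ := Fin m ⊕ Fin m)
    (fun j i => S i j) (fun j => Sum.elim (fun i => X i j) (fun i => D i j))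
    (by
      intro i j
      have := congrFun (congrFun hSX i) j
      rw [CStarMatrix.add_apply, hent, hent, hent] at this
      rw [ip_sum]
      exact this) m (fun a => Sum.elim (Pi.single a 1) 0)
  let W : CStarMatrix (Fin m) (Fin m) A := CStarMatrix.ofMatrix fun a l => star (z a l)
  have hWS : X = W * S := by
    ext a j
    rw [CStarMatrix.mul_apply]
    have h1 := hz a j
    rw [ip_sum] at h1
    simp only [Sum.elim_inl, Sum.elim_inr] at h1
    have h2 : ip (Pi.single a 1 : Fin m → A) (fun i => X i j) = X a j := by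
      rw [ip, Finset.sum_eq_single a]
      · simp
      · intro b _ hb
        simp [Pi.single_apply, hb]
      · simp
    have h3 : ip (fun i => (0 : Fin m → A) i) (fun i => D i j) = 0 := by simp [ip]
    rw [h2, h3, add_zero] at h1
    rw [← h1]
    rfl
  have hWW : W * star W ≤ 1 := by
    rw [← sub_nonneg]
    apply nonneg_of_gram _ t
    intro a b
    rw [CStarMatrix.sub_apply, CStarMatrix.mul_apply]
    have h1 := ht a b
    rw [ip_sum] at h1
    simp only [Sum.elim_inl, Sum.elim_inr] at h1
    have h2 : ip (Pi.single a 1 : Fin m → A) (Pi.single b 1) = if a = b then 1 else 0 := by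
      rw [ip, Finset.sum_eq_single a]
      · simp [Pi.single_apply]
      · intro c _ hc
        simp [Pi.single_apply, hc]
      · simp
    have h3 : ip (fun i => (0 : Fin m → A) i) (fun i => (0 : Fin m → A) i) = 0 := by simp [ip]
    have h4 : ∑ j, W a j * (star W) j b = ip (z a) (z b) := by
      simp [ip, W, CStarMatrix.star_apply]
    rw [h4, CStarMatrix.one_apply]
    have h5 : ip (fun i => (Pi.single a 1 : Fin m → A) i) (fun i => (Pi.single b 1 : Fin m → A) i)
        = if a = b then 1 else 0 := h2
    rw [h5, h3, add_zero] at h1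
    rw [← h1]
    abel
  refine ⟨W, ?_, hWS⟩
  have := mul_star_le_one (w := star W) (by rwa [star_star])
  rwa [star_star] at this

theorem df_of_matrix {m : ℕ} (hm : 1 ≤ m) (h : DF (CStarMatrix (Fin m) (Fin m) A)) : DF A := by
  classical
  intro x s hxs
  let o : Fin m := ⟨0, hm⟩
  let E : A → CStarMatrix (Fin m) (Fin m) A := fun a =>
    CStarMatrix.ofMatrix fun i j => if i = o ∧ j = o then a else 0
  have hE : ∀ a i j, E a i j = if i = o ∧ j = o then a else 0 := fun a i j => rfl
  have hEE : ∀ a b, star (E a) * E b = E (star a * b) := by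
    intro a b
    ext i j
    rw [CStarMatrix.mul_apply, hE, Finset.sum_eq_single o]
    · rw [CStarMatrix.star_apply, hE, hE]
      by_cases hi : i = o <;> by_cases hj : j = o <;> simp [hi, hj]
    · intro k _ hk
      rw [hE b]
      simp [hk]
    · simp
  have hEsub : ∀ a b, E a - E b = E (a - b) := by
    intro a b
    ext i j
    rw [CStarMatrix.sub_apply, hE, hE, hE]
    split_ifs <;> simp
  obtain ⟨c, hc⟩ := nonneg_iff.1 (sub_nonneg.2 hxs)
  obtain ⟨W, hW, hXW⟩ := h (E x) (E s) (by
    rw [← sub_nonneg, hEE, hEE, hEsub, hc, ← hEE]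
    exact star_mul_self_nonneg _)
  refine ⟨W o o, ?_, ?_⟩
  · obtain ⟨g, hg⟩ := gram_of_nonneg _ (sub_nonneg.2 hW)
    have h1 : 0 ≤ (1 - star W * W) o o := by rw [hg]; exact ip_self_nonneg _
    rw [CStarMatrix.sub_apply, CStarMatrix.one_apply, if_pos rfl, sub_nonneg,
      CStarMatrix.mul_apply] at h1
    refine le_trans ?_ h1
    have := Finset.single_le_sum (f := fun k => (star W) o k * W k o) (s := Finset.univ)
      (fun k _ => by rw [CStarMatrix.star_apply]; exact star_mul_self_nonneg _) (mem_univ o)
    simpa [CStarMatrix.star_apply] using this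
  · have := congrFun (congrFun hXW o) o
    rw [hE, if_pos ⟨rfl, rfl⟩, CStarMatrix.mul_apply, Finset.sum_eq_single o] at this
    · rw [hE, if_pos ⟨rfl, rfl⟩] at this
      exact this
    · intro k _ hk
      rw [hE]; simp [hk]
    · simp

/-- Disjoint unions of complete graphs. -/
def IsCluster {V : Type} (Γ : SimpleGraph V) : Prop :=
  ∀ a b c, Γ.Adj a b → Γ.Adj b c → a ≠ c → Γ.Adj a c

theorem inG_of_cluster {V : Type} [Fintype V] {Γ : SimpleGraph V} (hΓ : IsCluster Γ) :
    InG A Γ := by
  classical
  intro M hM
  let c : V → Finset V := fun i => Finset.univ.filter fun j => j = i ∨ Γ.Adj i j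
  have hc : ∀ i j, j ∈ c i ↔ (j = i ∨ Γ.Adj i j) := fun i j => by simp [c]
  have hclq : ∀ i, Γ.IsClique (c i : Set V) := by
    intro i a ha b hb hab
    rw [mem_coe, hc] at ha hb
    rcases ha with rfl | ha <;> rcases hb with rfl | hb
    · exact absurd rfl hab
    · exact hb
    · exact ha.symm
    · exact hΓ a i b ha.symm hb hab
  have hex : ∀ K : Finset V, ∃ x : K → K → A, Γ.IsClique (K : Set V) →
      ∀ i j : K, M i j = ip (x i) (x j) := by
    intro K
    by_cases hK : Γ.IsClique (K : Set V)
    · obtain ⟨x, hx⟩ := gram_of_nonneg _ (hM K hK)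
      exact ⟨x, fun _ i j => hx i j⟩
    · exact ⟨0, fun h => absurd h hK⟩
  choose x hx using hex
  let g : V → (Σ K : Finset V, K) → A := fun i q =>
    if h : i ∈ q.1 ∧ q.1 = c i then x q.1 ⟨i, h.1⟩ q.2 else 0
  have hg : ∀ i j, ip (g i) (g j) = if i = j ∨ Γ.Adj i j then M i j else 0 := by
    intro i j
    rw [ip, Fintype.sum_sigma, Finset.sum_eq_single (c i)]
    · split_ifs with h
      · have hcc : c i = c j := by
          ext k
          rw [hc, hc]
          rcases h with rfl | h
          · rfl
          · constructor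
            · rintro (rfl | hk)
              · exact Or.inr h.symm
              · by_cases hkj : k = j
                · exact Or.inl hkj
                · exact Or.inr (hΓ j i k h.symm hk (Ne.symm hkj))
            · rintro (rfl | hk)
              · exact Or.inr h
              · by_cases hki : k = i
                · exact Or.inl hki
                · exact Or.inr (hΓ i j k h hk (Ne.symm hki))
        have hi : i ∈ c i := (hc i i).2 (Or.inl rfl)
        have hj : j ∈ c i := by rw [hcc]; exact (hc j j).2 (Or.inl rfl)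
        have e := hx (c i) (hclq i) ⟨i, hi⟩ ⟨j, hj⟩
        rw [e, ip]
        refine sum_congr rfl fun l _ => ?_
        simp only [g]
        rw [dif_pos ⟨hi, trivial⟩, dif_pos ⟨hj, hcc⟩]
      · apply sum_eq_zero
        intro l _
        have hj : ¬ (j ∈ c i ∧ c i = c j) := by
          rintro ⟨h1, _⟩
          rw [hc] at h1
          rcases h1 with h1 | h1
          · exact h (Or.inl h1.symm)
          · exact h (Or.inr h1)
        simp only [g]
        rw [dif_neg hj, mul_zero]
    · intro K _ hK
      apply sum_eq_zero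
      intro l _
      simp only [g]
      rw [dif_neg (fun h => hK h.2), star_zero, zero_mul]
    · simp
  refine ⟨CStarMatrix.ofMatrix fun i j => if i = j ∨ Γ.Adj i j then M i j else 0,
    nonneg_of_gram _ g (fun i j => (hg i j).symm), fun i j hij => ?_⟩
  show (if i = j ∨ Γ.Adj i j then M i j else 0) = M i j
  rw [if_pos hij]

lemma df_of_not_cluster {V : Type} [Fintype V] {Γ : SimpleGraph V} (h : InG A Γ)
    (hn : ¬ IsCluster Γ) : DF A := by
  unfold IsCluster at hn
  push Not at hn
  obtain ⟨a, b, c, hab, hbc, hac, hn⟩ := hn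
  exact df_of_inG h hab hbc hac hn

/-- The two possibilities for `G(A)`. -/
theorem dichotomy [Nontrivial A] {V : Type} [Fintype V] {Γ : SimpleGraph V} (h : InG A Γ)
    (hn : ¬ IsCluster Γ) {W : Type} [Fintype W] (Δ : SimpleGraph W) :
    InG A Δ ↔ IsChordal Δ :=
  ⟨chordal_of_inG, inG_of_chordal (df_of_not_cluster h hn)⟩

instance {m : ℕ} [NeZero m] [Nontrivial A] : Nontrivial (CStarMatrix (Fin m) (Fin m) A) :=
  CStarMatrix.instNontrivial

theorem inG_matrix [Nontrivial A] {m : ℕ} (hm : 1 ≤ m) {V : Type} [Fintype V]
    (Γ : SimpleGraph V) : InG (CStarMatrix (Fin m) (Fin m) A) Γ ↔ InG A Γ := by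
  have : NeZero m := ⟨by omega⟩
  by_cases hc : IsCluster Γ
  · exact ⟨fun _ => inG_of_cluster hc, fun _ => inG_of_cluster hc⟩
  · constructor
    · intro h
      exact inG_of_chordal (df_of_matrix hm (df_of_not_cluster h hc)) (chordal_of_inG h)
    · intro h
      exact inG_of_chordal (df_matrix (df_of_not_cluster h hc) m) (chordal_of_inG h)

end Pool.Agent.Q92.CS
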